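import Pool.Agent.Helper56.TOF.Goals2

/-!
# Counting words (packet CNT of project TOF)
-/

set_option autoImplicit false

open Set Filter Topology MeasureTheory

namespace Pool.Agent.Helper67.TOF

open Pool.Agent.Helper56.RZ Pool.Agent.Helper30.CIR Pool.Agent.Helper56.TOF

/-- The number of words with at most `d` letters `inr`. -/
lemma card_words (a b J d : ℕ) (ha : 1 ≤ a) :
    (Finset.univ.filter fun p : Fin J → Fin b ⊕ Fin a =>
      (Finset.univ.filter fun j : Fin J => (p j).isRight = true).card ≤ d).card ≤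
        (b + 1) ^ J * a ^ d := by
  classical
  set W := Finset.univ.filter fun p : Fin J → Fin b ⊕ Fin a =>
      (Finset.univ.filter fun j : Fin J => (p j).isRight = true).card ≤ d with hW
  have ha0 : (0 : ℝ) < a := by exact_mod_cast ha
  let w : Fin b ⊕ Fin a → ℝ := fun l => if l.isRight = true then 1 / (a : ℝ) else 1
  have hw0 : ∀ l, 0 ≤ w l := by
    intro l
    simp only [w]
    split_ifs <;> positivity
  have hsum : ∑ l, w l = b + 1 := by
    rw [Fintype.sum_sum_type]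
    simp only [w, Sum.isRight_inl, Sum.isRight_inr, if_true]
    simp only [Bool.false_eq_true, if_false, Finset.sum_const, Finset.card_univ, Fintype.card_fin,
      nsmul_eq_mul, mul_one]
    field_simp
  have hpow : ((b : ℝ) + 1) ^ J = ∑ p : Fin J → Fin b ⊕ Fin a, ∏ j, w (p j) := by
    rw [← hsum, Fintype.sum_pow]
  have hprod : ∀ p ∈ W, (1 / (a : ℝ)) ^ d ≤ ∏ j, w (p j) := by
    intro p hp
    have hp' := (Finset.mem_filter.mp hp).2
    have : ∏ j, w (p j) = (1 / (a : ℝ)) ^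
        (Finset.univ.filter fun j : Fin J => (p j).isRight = true).card := by
      simp only [w]
      rw [Finset.prod_ite, Finset.prod_const, Finset.prod_const_one, mul_one]
    rw [this]
    apply pow_le_pow_of_le_one (by positivity) _ hp'
    rw [div_le_one ha0]
    exact_mod_cast ha
  have h1 : (W.card : ℝ) * (1 / (a : ℝ)) ^ d ≤ ((b : ℝ) + 1) ^ J := by
    rw [hpow]
    calc (W.card : ℝ) * (1 / (a : ℝ)) ^ d = ∑ p ∈ W, (1 / (a : ℝ)) ^ d := by
          rw [Finset.sum_const, nsmul_eq_mul]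
      _ ≤ ∑ p ∈ W, ∏ j, w (p j) := Finset.sum_le_sum hprod
      _ ≤ ∑ p : Fin J → Fin b ⊕ Fin a, ∏ j, w (p j) :=
          Finset.sum_le_sum_of_subset_of_nonneg (Finset.subset_univ _)
            fun p _ _ => Finset.prod_nonneg fun j _ => hw0 _
  have h2 : (W.card : ℝ) ≤ ((b : ℝ) + 1) ^ J * (a : ℝ) ^ d := by
    have h3 : (1 / (a : ℝ)) ^ d * (a : ℝ) ^ d = 1 := by
      rw [← mul_pow, one_div, inv_mul_cancel₀ ha0.ne', one_pow]
    calc (W.card : ℝ) = (W.card : ℝ) * (1 / (a : ℝ)) ^ d * (a : ℝ) ^ d := by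
          rw [mul_assoc, h3, mul_one]
      _ ≤ ((b : ℝ) + 1) ^ J * (a : ℝ) ^ d := mul_le_mul_of_nonneg_right h1 (by positivity)
  exact_mod_cast h2

/-- Packet CNT. -/
theorem gCNT : StmtCNT := by
  classical
  intro K M U m F ε L a b VA VB hF ha hVA hVB hcA hcB J d w hJ hw
  let V : Fin b ⊕ Fin a → Set (E K) := Sum.elim VB VA
  have hV : ∀ l, V l ⊆ M ∧ Tog F ε L (V l) := by
    intro l
    rcases l with i | i
    · exact hVB i
    · exact hVA i
  let S : (Fin J → Fin b ⊕ Fin a) → Set (E K) := fun p =>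
    {x | x ∈ M ∧ ∀ j : Fin J, F^[(j : ℕ) * L] x ∈ V (p j)}
  have hSM : ∀ p, S p ⊆ M := fun p x hx => hx.1
  have hST : ∀ p, Tog F ε (J * L) (S p) := by
    intro p x hx y hy k hk
    obtain ⟨j, i, hj, hi, hki⟩ : ∃ j i : ℕ, j < J ∧ i ≤ L ∧ k = i + j * L := by
      rcases Nat.eq_zero_or_pos L with hL | hL
      · subst hL
        refine ⟨0, 0, hJ, le_rfl, ?_⟩
        simpa using hk
      · by_cases hkJ : k = J * L
        · refine ⟨J - 1, L, by omega, le_rfl, ?_⟩
          obtain ⟨J', rfl⟩ : ∃ J', J = J' + 1 := ⟨J - 1, by omega⟩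
          rw [hkJ, Nat.add_sub_cancel]
          ring
        · have hk' : k < J * L := lt_of_le_of_ne hk hkJ
          refine ⟨k / L, k % L, (Nat.div_lt_iff_lt_mul hL).mpr hk', (Nat.mod_lt _ hL).le, ?_⟩
          exact (Nat.mod_add_div' k L).symm
    have h := (hV (p ⟨j, hj⟩)).2 _ (hx.2 ⟨j, hj⟩) _ (hy.2 ⟨j, hj⟩) i hi
    rw [hki, Function.iterate_add_apply, Function.iterate_add_apply]
    exact h
  set W := Finset.univ.filter fun p : Fin J → Fin b ⊕ Fin a =>
      (Finset.univ.filter fun j : Fin J => (p j).isRight = true).card ≤ d with hW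
  have hcov : {x | x ∈ M ∧ Set.ncard {j | j < J ∧ F^[j * L] x ∉ U} ≤ d} ⊆ ⋃ p ∈ W, S p := by
    rintro x ⟨hxM, hx⟩
    have hFM : ∀ k, F^[k] x ∈ M := fun k => (hF.iterate k) hxM
    have hl : ∀ j : Fin J, ∃ l : Fin b ⊕ Fin a, F^[(j : ℕ) * L] x ∈ V l ∧
        (l.isRight = true → F^[(j : ℕ) * L] x ∉ U) := by
      intro j
      by_cases hU : F^[(j : ℕ) * L] x ∈ U
      · obtain ⟨i, hi⟩ := hcB _ (hFM _) hU
        exact ⟨Sum.inl i, hi, fun h => by simp at h⟩
      · obtain ⟨i, hi⟩ := hcA _ (hFM ((j : ℕ) * L))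
        exact ⟨Sum.inr i, hi, fun _ => hU⟩
    choose p hp hp' using hl
    have hpW : p ∈ W := by
      refine Finset.mem_filter.mpr ⟨Finset.mem_univ _, le_trans ?_ hx⟩
      have hfin : ({j | j < J ∧ F^[j * L] x ∉ U} : Set ℕ).Finite :=
        (Set.finite_Iio J).subset fun j hj => hj.1
      rw [← Finset.card_image_of_injective _ (Fin.val_injective (n := J)),
        ← Set.ncard_coe_finset]
      apply Set.ncard_le_ncard _ hfin
      intro j hj
      rw [Finset.mem_coe, Finset.mem_image] at hj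
      obtain ⟨j', hj', rfl⟩ := hj
      exact ⟨j'.2, hp' j' (Finset.mem_filter.mp hj').2⟩
    exact mem_iUnion₂.mpr ⟨p, hpW, hxM, hp⟩
  calc m {x | x ∈ M ∧ Set.ncard {j | j < J ∧ F^[j * L] x ∉ U} ≤ d} ≤ m (⋃ p ∈ W, S p) :=
        measure_mono hcov
    _ ≤ ∑ p ∈ W, m (S p) := measure_biUnion_finset_le _ _
    _ ≤ ∑ p ∈ W, w := Finset.sum_le_sum fun p _ => hw _ (hSM p) (hST p)
    _ = (W.card : ENNReal) * w := by rw [Finset.sum_const, nsmul_eq_mul]
    _ ≤ (((b + 1) ^ J * a ^ d : ℕ) : ENNReal) * w := by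
        gcongr
        exact_mod_cast card_words a b J d ha

end Pool.Agent.Helper67.TOF
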