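import Pool.Agent.Helper56.TOF.Goals

/-!
# Project TOF, packet LIN: the line of a point
-/

set_option autoImplicit false

open Set Filter Topology MeasureTheory

open scoped ContDiff

namespace Pool.Agent.Helper67.TOF

open Pool.Agent.Helper56.RZ Pool.Agent.Helper30.CIR Pool.Agent.Helper56.TOF

theorem cq_nonneg (q r : ℕ) : 0 ≤ cq q r := by
  unfold cq
  positivity

theorem norm_ee (t : ℝ) : ‖ee t‖ = 1 := by
  unfold ee
  exact Complex.norm_exp_ofReal_mul_I _

theorem norm_zz_lt {K : ℕ} (B tau : E K → ℝ) (b0 : ℝ) (q r : ℕ) (al z0 : ℝ) (x : E K)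
    (h : cq q r < z0) : ‖zz B tau b0 q r al x‖ < z0 := by
  unfold zz
  rw [norm_mul, norm_ee, mul_one, Complex.norm_real, Real.norm_eq_abs]
  have h0 : 0 ≤ am B b0 x := Real.smoothTransition.nonneg _
  have h1 : am B b0 x ≤ 1 := Real.smoothTransition.le_one _
  have hc := cq_nonneg q r
  rw [abs_of_nonneg (mul_nonneg hc h0)]
  calc cq q r * am B b0 x ≤ cq q r * 1 := mul_le_mul_of_nonneg_left h1 hc
    _ = cq q r := mul_one _
    _ < z0 := h

/-- two centres differ by more than `7` -/
theorem centre_sep {K : ℕ} {s : WithTop ℕ∞} {M : Set (E K)} {A : ℝ → E K → E K}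
    {b B tau : E K → ℝ} {p x : E K} (hF : Flow s M A) (hB : Box s M A b B tau p) (hx : x ∈ M)
    {a a' : ℝ} (ha : Centre A B tau x a) (ha' : Centre A B tau x a') (hlt : a < a') :
    a + 7 < a' := by
  by_contra hcon
  have hcon' : a' ≤ a + 7 := not_lt.1 hcon
  set u : ℝ := (a' - a) / 2 with hu
  have hu0 : 0 < u := by rw [hu]; linarith
  have hu1 : u ≤ 7 / 2 := by rw [hu]; linarith
  have h1 := (hB.eqv (A a x) (hF.maps a hx) u ha.1 (by rw [ha.2]; norm_num)
    (by rw [ha.2, zero_add, abs_of_pos hu0]; exact hu1)).2
  have h2 := (hB.eqv (A a' x) (hF.maps a' hx) (-u) ha'.1 (by rw [ha'.2]; norm_num)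
    (by rw [ha'.2, zero_add, abs_neg, abs_of_pos hu0]; exact hu1)).2
  rw [← hF.add u a x hx] at h1
  rw [← hF.add (-u) a' x hx] at h2
  have h3 : u + a = -u + a' := by rw [hu]; ring
  rw [h3, h2, ha.2, ha'.2] at h1
  linarith

theorem gLIN : StmtLIN := by
  intro K s M A b B tau p b0 z0 Φ q r al x a _ hF hB hb0 hPF hq hcq hal1 hal2 hx hBx ht1 ht2 hC
  have hq' : (1 : ℝ) ≤ q := by exact_mod_cast hq
  have hcq0 := cq_nonneg q r
  refine ⟨?_, ?_⟩
  · refine ⟨hC.a0, hC.gap, ?_, ?_, ?_⟩
    · -- amplitudes
      intro i
      have h0 : 0 ≤ am B b0 (A (a i) x) := Real.smoothTransition.nonneg _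
      have h1 : am B b0 (A (a i) x) ≤ 1 := Real.smoothTransition.le_one _
      refine ⟨mul_nonneg hcq0 h0, ?_⟩
      calc cq q r * am B b0 (A (a i) x) ≤ cq q r * 1 := mul_le_mul_of_nonneg_left h1 hcq0
        _ = cq q r := mul_one _
    · -- near a centre
      intro i t ht
      have hy : A (a i) x ∈ M := hF.maps (a i) hx
      have h1 := hB.eqv (A (a i) x) hy (t - a i) (hC.cen i).1
        (by rw [(hC.cen i).2]; norm_num) (by rw [(hC.cen i).2, zero_add]; exact ht)
      rw [← hF.add (t - a i) (a i) x hx, sub_add_cancel, (hC.cen i).2, zero_add] at h1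
      have h2 : am B b0 (A t x) = am B b0 (A (a i) x) := by
        unfold am
        rw [h1.1]
      show Φ (zz B tau b0 q r al (A t x), al * tau (A t x), 1 / q) / (q * al) = _
      have h3 : zz B tau b0 q r al (A t x) =
          ((cq q r * am B b0 (A (a i) x) : ℝ) : ℂ) * ee (q * (al * (t - a i))) := by
        unfold zz
        rw [h2, h1.2]
      rw [h3, h1.2]
    · -- far from the centres
      refine ⟨tau x - 5 / 2, by linarith, ?_⟩
      intro t ht hfar
      by_contra hne
      have hy : A t x ∈ M := hF.maps t hx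
      set y : E K := A t x with hydef
      have hne' : Φ (zz B tau b0 q r al y, al * tau y, 1 / q) / (q * al) ≠ 0 := hne
      have hΦ : Φ (zz B tau b0 q r al y, al * tau y, 1 / q) ≠ 0 := fun h => hne' (by
        rw [h, zero_div])
      -- positive mass
      have hBy : 0 < B y := by
        by_contra hBy
        have hBy' : B y ≤ 0 := not_lt.1 hBy
        have h1 : B y / b0 ≤ 0 := div_nonpos_of_nonpos_of_nonneg hBy' hb0.le
        have h2 : am B b0 y = 0 := by
          unfold am
          exact Real.smoothTransition.zero_of_nonpos (by linarith)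
        apply hΦ
        have h3 : zz B tau b0 q r al y = 0 := by
          unfold zz
          rw [h2, mul_zero, Complex.ofReal_zero, zero_mul]
        rw [h3]
        exact hPF.zero _ _
      have he : |1 / (q : ℝ)| ≤ 1 := by
        rw [abs_of_nonneg (by positivity), div_le_one (by linarith)]
        exact hq'
      have hn := norm_zz_lt B tau b0 q r al z0 y hcq
      have h4 : -1 < al * tau y := by
        by_contra h
        exact hΦ (hPF.off _ _ _ hn he (Or.inl (not_lt.1 h)))
      have h5 : al * tau y < 5 / 2 := by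
        by_contra h
        exact hΦ (hPF.off _ _ _ hn he (Or.inr (not_lt.1 h)))
      have h6 : -1 < tau y := by
        by_contra h
        have h' : tau y ≤ -1 := not_lt.1 h
        nlinarith
      have h7 : tau y < 5 / 2 := by
        by_contra h
        have h' : 5 / 2 ≤ tau y := not_lt.1 h
        nlinarith
      have h8 : |tau y| ≤ 5 / 2 := abs_le.2 ⟨by linarith, h7.le⟩
      -- the centre of the pass
      have h9 := hB.eqv y hy (-tau y) hBy (by linarith) (by
        rw [add_neg_cancel, abs_zero]; norm_num)
      rw [add_neg_cancel, hydef, ← hF.add _ t x hx, ← hydef] at h9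
      have hcen : Centre A B tau x (-tau y + t) := by
        refine ⟨?_, h9.2⟩
        rw [h9.1]
        exact hBy
      have h10 := hB.eqv x hx (-tau x) hBx (by rw [abs_of_pos (by linarith)]; linarith) (by
        rw [add_neg_cancel, abs_zero]; norm_num)
      rw [add_neg_cancel] at h10
      have hcen' : Centre A B tau x (-tau x) := ⟨by rw [h10.1]; exact hBx, h10.2⟩
      have h11 := centre_sep hF hB hx hcen' hcen (by linarith)
      obtain ⟨i, hi⟩ := hC.all (-tau y + t) (by linarith) hcen
      have h12 := hfar i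
      rw [hi] at h12
      have h13 : t - (-tau y + t) = tau y := by ring
      rw [h13] at h12
      linarith
  · -- the orbit
    intro S hS0 hS k
    have horb : ∀ k, (gT A Φ B tau b0 q r al)^[k] x = A (S k) x := by
      intro k
      induction k with
      | zero => rw [Function.iterate_zero, id, hS0, hF.zero x hx]
      | succ k ih =>
        rw [Function.iterate_succ_apply', ih]
        show A 1 (A (uu Φ B tau b0 q r al (A (S k) x)) (A (S k) x)) = A (S (k + 1)) x
        have hm : A (S k) x ∈ M := hF.maps (S k) hx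
        rw [← hF.add 1 _ _ hm, ← hF.add _ (S k) x hx, hS k]
        congr 1
        unfold uu
        ring
    refine ⟨horb k, ?_⟩
    rw [horb k]
    unfold kapT
    congr 1
    have h1 : (fun t => uu Φ B tau b0 q r al (A t (A (S k) x))) =
        fun t => (1 / al - 1) + (fun t' => th Φ B tau b0 q r al (A t' x)) (t + S k) := by
      funext t
      show uu Φ B tau b0 q r al (A t (A (S k) x)) =
        (1 / al - 1) + th Φ B tau b0 q r al (A (t + S k) x)
      rw [hF.add t (S k) x hx]
      rfl
    rw [h1, deriv_const_add]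
    have h2 := deriv_comp_add_const (fun t' => th Φ B tau b0 q r al (A t' x)) (S k) 0
    rw [zero_add] at h2
    exact h2

end Pool.Agent.Helper67.TOF
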